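import Pool.Agent.Run7.h377.MA.Win2
import Pool.Agent.Run7.h377.MA.Iso

/-!
# MP_b6b996_nt: the Möbius exponential sum on every short arc

`F_R(x) = ∑_{n ≤ R} μ(n) e(nx)`. Parseval's identity gives `∫_0^1 |F_R|² ≍ R`, hence the lower bound
`1/2` for the growth exponent of the sup norm. Here it is shown that this mass cannot avoid any
short arc: for each `δ > 0` there is `c > 0` such that for all large `R` the integral of `|F_R|²`
over EVERY arc of length `δ` is at least `c R`, and arcs whose length tends to zero like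
`(log log R)² / log R` still carry `R^(1 - ε)`. The same holds for the sums over the interval
`(N, N + R]`, for `N ≤ R^(2 - ε)`, and for all coefficients with the support of `μ`.

Method: by the Chinese remainder theorem there are many squarefree `y` (also prime to `P`) such
that no other integer within `H` of `y` is squarefree. If `S` is the sum and `f` a large power of
a sine which vanishes at the ends of the arc, then the Fourier coefficient of `S f` at such a `y`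
is `a(y) ∫ f` up to a small error; Bessel's inequality.
-/

set_option autoImplicit false

open Filter Topology MeasureTheory Run7.h377.MA

namespace Pool.Agent.Results.MP_b6b996_nt.EveryShortArc

/-- The exponential sum `∑_{N < n ≤ N + R} a(n) e^{2πinx}`. -/
noncomputable def expSum (a : ℕ → ℂ) (N R : ℕ) (x : ℝ) : ℂ :=
  ∑ n ∈ Finset.Ioc N (N + R), a n * Complex.exp (2 * Real.pi * Complex.I * n * x)

/-- The coefficients vanish at the integers which are not squarefree, they have absolute value one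
at the squarefree integers prime to `P`, and at most one at all others. -/
structure Coef (P : ℕ) (a : ℕ → ℂ) : Prop where
  zero : ∀ n, ¬ Squarefree n → a n = 0
  one : ∀ n, Squarefree n → n.Coprime P → ‖a n‖ = 1
  le : ∀ n, ‖a n‖ ≤ 1

/-- `F_R(x) = ∑_{n ≤ R} μ(n) e^{2πinx}`. -/
noncomputable def F (R : ℕ) (x : ℝ) : ℂ :=
  expSum (fun n => ((ArithmeticFunction.moebius n : ℤ) : ℂ)) 0 R x

/-- The growth exponent of the maximum of `|F_R|` over `[α, β]`. -/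
noncomputable def growthExp (α β : ℝ) : ℝ :=
  sInf {a : ℝ | 0 ≤ a ∧ ∃ C : ℝ, ∀ R : ℕ, 1 ≤ R → ∀ x ∈ Set.Icc α β, ‖F R x‖ ≤ C * (R : ℝ) ^ a}

lemma expSum_eq (a : ℕ → ℂ) (N R : ℕ) (x : ℝ) : expSum a N R x = S a N R x := by
  unfold expSum S e
  refine Finset.sum_congr rfl fun n _ => ?_
  congr 2
  push_cast
  ring

lemma core {P k H X : ℕ} (hP : 0 < P) {δ : ℝ} (hδ : 0 < δ) (hδ1 : δ ≤ 1) (hk : 2 ≤ k)
    (hH : 4 * k / δ ≤ H) (hkH : 2 * (2 * (k : ℝ) + 1) * H ≤ 12 ^ k)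
    (hX : 3 * H + 1 + P ≤ Nat.primeCounting X) {A : ℝ} (hA : (16 : ℝ) ^ X ≤ A) (N R : ℕ)
    (hR : 8 * (A * P) * (1 + Real.sqrt (N + R)) ≤ R) (a : ℕ → ℂ) (ha : Coef P a) (α : ℝ) :
    (R : ℝ) / (8 * (A * P)) * (δ ^ 2 / (4 * (2 * k + 1) ^ 2)) ≤
      ∫ x in α..(α + δ), ‖expSum a N R x‖ ^ 2 := by
  obtain ⟨Y, hY, hc⟩ := isolated hP hX N R
  have h1 := main_lower2 (α := α) hδ hδ1 hk hH hkH a ha.le N R Y fun y hy => by
    obtain ⟨b1, b2, b3, b4⟩ := hY y hy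
    exact ⟨b1, ha.one y b2 b3, fun n _ hn hle => ha.zero n (b4 n hn hle)⟩
  simp only [expSum_eq]
  refine le_trans ?_ h1
  have hP0 : (0 : ℝ) < P := by exact_mod_cast hP
  obtain ⟨B, hB⟩ : ∃ B, B = (16 : ℝ) ^ X := ⟨_, rfl⟩
  have hB0 : 0 < B := by
    rw [hB]
    positivity
  rw [← hB] at hA hc
  have h0 : 0 < 4 * (B * (P : ℝ)) := by positivity
  have hAB : 4 * (B * (P : ℝ)) ≤ 4 * (A * P) := by
    have := mul_le_mul_of_nonneg_right hA hP0.le
    linarith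
  have h2 : (R : ℝ) / (8 * (A * P)) ≤ (Y.card : ℝ) := by
    refine le_trans ?_ hc
    have hK : 0 < A * P := by linarith
    have h3 : 1 + Real.sqrt (N + R) ≤ (R : ℝ) / (8 * (A * P)) := by
      rw [le_div_iff₀ (by linarith)]
      linarith
    have h4 : (R : ℝ) / (4 * (A * P)) = (R : ℝ) / (8 * (A * P)) + (R : ℝ) / (8 * (A * P)) := by
      field_simp
      ring
    have h5 : (R : ℝ) / (4 * (A * P)) ≤ (R : ℝ) / (4 * (B * P)) :=
      div_le_div_of_nonneg_left (Nat.cast_nonneg R) h0 hAB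
    linarith
  exact mul_le_mul_of_nonneg_right h2 (by positivity)

/-- the parameters of the window -/
lemma win_H {δ : ℝ} (hδ : 0 < δ) (hδ1 : δ ≤ 1) : ∃ k H : ℕ, 2 ≤ k ∧ 4 * k / δ ≤ H ∧
    2 * (2 * (k : ℝ) + 1) * H ≤ 12 ^ k ∧ (k : ℝ) ≤ Real.log (2 / δ) + 5 ∧
    (H : ℝ) ≤ 5 * k / δ := by
  have h2δ : 2 ≤ 2 / δ := by
    rw [le_div_iff₀ hδ]
    linarith
  have hlog : 0 ≤ Real.log (2 / δ) := Real.log_nonneg (by linarith)
  obtain ⟨j, hj⟩ : ∃ j, j = ⌈Real.log (2 / δ)⌉₊ := ⟨_, rfl⟩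
  have hj1 : Real.log (2 / δ) ≤ j := by
    rw [hj]
    exact Nat.le_ceil _
  have hj2 : (j : ℝ) < Real.log (2 / δ) + 1 := by
    rw [hj]
    exact Nat.ceil_lt_add_one hlog
  have hexp : 2 / δ ≤ 3 ^ j := by
    calc 2 / δ = Real.exp (Real.log (2 / δ)) := (Real.exp_log (by linarith)).symm
      _ ≤ Real.exp j := Real.exp_le_exp.2 hj1
      _ = Real.exp 1 ^ j := by rw [← Real.exp_nat_mul, mul_one]
      _ ≤ 3 ^ j := by
        have := Real.exp_one_lt_three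
        gcongr
  obtain ⟨k, hk⟩ : ∃ k, k = j + 4 := ⟨_, rfl⟩
  have hkR : (k : ℝ) = j + 4 := by
    rw [hk]
    push_cast
    ring
  have hk4 : (4 : ℝ) ≤ k := by
    rw [hkR]
    have : (0 : ℝ) ≤ j := Nat.cast_nonneg j
    linarith
  have hHle : (⌈4 * k / δ⌉₊ : ℝ) ≤ 5 * k / δ := by
    have h1 := Nat.ceil_lt_add_one (show 0 ≤ 4 * (k : ℝ) / δ by positivity)
    have h2 : 1 ≤ k / δ := by
      rw [le_div_iff₀ hδ]
      linarith
    have h3 : 5 * (k : ℝ) / δ = 4 * k / δ + k / δ := by ring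
    rw [h3]
    linarith
  refine ⟨k, ⌈4 * k / δ⌉₊, by omega, Nat.le_ceil _, ?_, by linarith, hHle⟩
  have hkk : (k : ℝ) ^ 2 ≤ 4 ^ k := by
    have h1 : (k : ℝ) ≤ 2 ^ k := by
      have := (Nat.lt_two_pow_self (n := k)).le
      exact_mod_cast this
    calc (k : ℝ) ^ 2 ≤ (2 ^ k) ^ 2 := by gcongr
      _ = 4 ^ k := by
        rw [← pow_mul, mul_comm, pow_mul]
        norm_num
  have h12 : (12 : ℝ) ^ k = 4 ^ k * (81 * 3 ^ j) := by
    have : (81 : ℝ) * 3 ^ j = 3 ^ k := by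
      rw [hk, pow_add]
      norm_num
      ring
    rw [this, ← mul_pow]
    norm_num
  have h4k : (0 : ℝ) < 4 ^ k := by positivity
  have h3j : (0 : ℝ) < 3 ^ j := by positivity
  calc 2 * (2 * (k : ℝ) + 1) * ⌈4 * k / δ⌉₊ ≤ 2 * (2 * (k : ℝ) + 1) * (5 * k / δ) :=
        mul_le_mul_of_nonneg_left hHle (by positivity)
    _ = 5 * k * (2 * k + 1) * (2 / δ) := by ring
    _ ≤ (15 * k ^ 2) * 3 ^ j := by
        refine mul_le_mul ?_ hexp (by positivity) (by positivity)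
        nlinarith
    _ ≤ (15 * 4 ^ k) * 3 ^ j := by gcongr
    _ ≤ 12 ^ k := by
        rw [h12]
        nlinarith [mul_pos h4k h3j]

lemma pi_big {P X : ℕ} {H : ℕ} {W L LL c C : ℝ} (hc0 : 0 < c) (hC : C = 4 * (91 + P) / c)
    (hHW' : (H : ℝ) ≤ 30 * W) (hW1 : 1 ≤ W) (hWle : W * (C * LL) ≤ L) (hLL0 : 0 < LL)
    (hX2 : c / 2 * L ≤ X) (hX3 : (2 : ℝ) ≤ X) (hlogX : Real.log X ≤ LL)
    (f4 : Real.log ((X : ℝ) + 1) ≤ X * (Real.log 2 - 1 / 2)) :
    3 * H + 1 + P ≤ Nat.primeCounting X := by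
  have hlogX0 : 0 < Real.log X := Real.log_pos (by linarith)
  have h1 := Chebyshev.pi_ge X
  have h2 : (X : ℝ) / 2 / LL ≤ ((X : ℝ) * Real.log 2 - Real.log (X + 1)) / Real.log X := by
    rw [div_le_div_iff₀ hLL0 hlogX0]
    have h3 : (X : ℝ) / 2 ≤ (X : ℝ) * Real.log 2 - Real.log (X + 1) := by linarith
    have h4 : (0 : ℝ) ≤ (X : ℝ) / 2 := by positivity
    exact mul_le_mul h3 hlogX hlogX0.le (h4.trans h3)
  have h5 : (91 + (P : ℝ)) * W ≤ (X : ℝ) / 2 / LL := by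
    rw [le_div_iff₀ hLL0]
    have h6 : (91 + (P : ℝ)) * W * LL = c / 4 * (W * (C * LL)) := by
      rw [hC]
      field_simp
    rw [h6]
    have h7 : c / 4 * (W * (C * LL)) ≤ c / 4 * L :=
      mul_le_mul_of_nonneg_left hWle (by positivity)
    linarith
  have h7 : ((3 * H + 1 + P : ℕ) : ℝ) ≤ (Nat.primeCounting X : ℝ) := by
    push_cast
    have h8 : 3 * (H : ℝ) + 1 + P ≤ (91 + (P : ℝ)) * W := by
      have hP0 : (0 : ℝ) ≤ P := Nat.cast_nonneg P
      nlinarith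
    linarith
  exact_mod_cast h7

lemma sup_of_int {δ : ℝ} (hδ : 0 < δ) (hδ1 : δ ≤ 1) (a : ℕ → ℂ) (N R : ℕ) (α : ℝ) {c : ℝ}
    (hc : 0 < c) (h : c ≤ ∫ x in α..(α + δ), ‖expSum a N R x‖ ^ 2) :
    ∃ x ∈ Set.Icc α (α + δ), Real.sqrt c ≤ ‖expSum a N R x‖ := by
  by_contra hcon
  push Not at hcon
  have hcont : Continuous fun x => ‖expSum a N R x‖ ^ 2 := by
    simp only [expSum_eq]
    exact (S_cont a N R).norm.pow 2
  have hne : (Set.Icc α (α + δ)).Nonempty := ⟨α, by constructor <;> linarith⟩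
  obtain ⟨x0, hx0, hmax⟩ := isCompact_Icc.exists_isMaxOn hne hcont.continuousOn
  have h1 : ∫ x in α..(α + δ), ‖expSum a N R x‖ ^ 2 ≤
      ∫ x in α..(α + δ), ‖expSum a N R x0‖ ^ 2 := by
    refine intervalIntegral.integral_mono_on (by linarith) (hcont.intervalIntegrable _ _)
      (continuous_const.intervalIntegrable _ _) fun x hx => ?_
    exact hmax hx
  rw [intervalIntegral.integral_const, smul_eq_mul] at h1
  have h2 := hcon x0 hx0
  have h3 : ‖expSum a N R x0‖ ^ 2 < c := by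
    have := Real.sq_sqrt hc.le
    have h4 := norm_nonneg (expSum a N R x0)
    nlinarith [Real.sqrt_nonneg c]
  have h5 : (α + δ - α) * ‖expSum a N R x0‖ ^ 2 ≤ ‖expSum a N R x0‖ ^ 2 := by
    have h6 : 0 ≤ ‖expSum a N R x0‖ ^ 2 := by positivity
    nlinarith
  linarith

lemma pi_tendsto : Tendsto Nat.primeCounting atTop atTop := Nat.tendsto_primeCounting

/-- fixed arcs -/
lemma fixed {P : ℕ} (hP : 0 < P) {δ : ℝ} (hδ : 0 < δ) (hδ1 : δ ≤ 1) :
    ∃ c : ℝ, 0 < c ∧ ∀ N R : ℕ, 1 ≤ c * R → (N : ℝ) ≤ c * (R : ℝ) ^ 2 → ∀ a, Coef P a → ∀ α : ℝ,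
      c * R ≤ ∫ x in α..(α + δ), ‖expSum a N R x‖ ^ 2 := by
  obtain ⟨k, H, hk, hH, hkH, -, -⟩ := win_H hδ hδ1
  obtain ⟨X, hX⟩ := (pi_tendsto.eventually_ge_atTop (3 * H + 1 + P)).exists
  obtain ⟨A, hA⟩ : ∃ A, A = (16 : ℝ) ^ X := ⟨_, rfl⟩
  have hA1 : 1 ≤ A := by
    rw [hA]
    exact one_le_pow₀ (by norm_num)
  obtain ⟨K, hK⟩ : ∃ K, K = A * (P : ℝ) := ⟨_, rfl⟩
  have hK1 : 1 ≤ K := by
    have h1 : (1 : ℝ) ≤ P := by exact_mod_cast hP
    rw [hK]
    nlinarith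
  have hK0 : 0 < K := by linarith
  obtain ⟨q, hq⟩ : ∃ q, q = (2 * (k : ℝ) + 1) ^ 2 := ⟨_, rfl⟩
  have hq0 : 0 < q := by
    rw [hq]
    positivity
  set c : ℝ := min (1 / (2 * (32 * K) ^ 2)) (δ ^ 2 / (32 * K * q)) with hc
  have hc0 : 0 < c := lt_min (by positivity) (by positivity)
  have hc1 : c ≤ 1 / (2 * (32 * K) ^ 2) := min_le_left _ _
  have hc2 : c ≤ δ ^ 2 / (32 * K * q) := min_le_right _ _
  refine ⟨c, hc0, fun N R h1 h2 a ha α => ?_⟩
  have hR0 : (0 : ℝ) ≤ R := Nat.cast_nonneg R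
  have hRpos : (0 : ℝ) < R := by
    rcases hR0.eq_or_lt with h | h
    · rw [← h] at h1
      linarith
    · exact h
  have h3 : Real.sqrt (N + R) ≤ R / (32 * K) := by
    refine Real.sqrt_le_iff.2 ⟨by positivity, ?_⟩
    have h4 : (R : ℝ) ≤ c * (R : ℝ) ^ 2 := by nlinarith
    have h5 : (N : ℝ) + R ≤ 2 * c * (R : ℝ) ^ 2 := by linarith
    refine h5.trans ?_
    have h6 : 2 * c ≤ 1 / (32 * K) ^ 2 := by
      calc 2 * c ≤ 2 * (1 / (2 * (32 * K) ^ 2)) := by linarith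
        _ = 1 / (32 * K) ^ 2 := by field_simp
    calc 2 * c * (R : ℝ) ^ 2 ≤ 1 / (32 * K) ^ 2 * (R : ℝ) ^ 2 := by gcongr
      _ = ((R : ℝ) / (32 * K)) ^ 2 := by
        rw [div_pow]
        ring
  have h7 : (1 : ℝ) ≤ R / (32 * K) := by
    rw [le_div_iff₀ (by positivity), one_mul]
    have h8 : c * (32 * K) ≤ 1 := by
      calc c * (32 * K) ≤ 1 / (2 * (32 * K) ^ 2) * (32 * K) := by gcongr
        _ = 1 / (2 * (32 * K)) := by field_simp
        _ ≤ 1 := by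
          rw [div_le_one (by positivity)]
          linarith
    have h9 : c * (32 * K) ≤ c * R := h8.trans h1
    exact le_of_mul_le_mul_left h9 hc0
  have h10 : 8 * (A * P) * (1 + Real.sqrt (N + R)) ≤ (R : ℝ) := by
    rw [← hK]
    calc 8 * K * (1 + Real.sqrt (N + R)) ≤ 8 * K * (R / (32 * K) + R / (32 * K)) := by gcongr
      _ = R / 2 := by
        field_simp
        ring
      _ ≤ R := by linarith
  refine le_trans ?_ (core hP hδ hδ1 hk hH hkH hX hA.ge N R h10 a ha α)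
  rw [← hK, ← hq]
  calc c * R ≤ δ ^ 2 / (32 * K * q) * R := by gcongr
    _ = R / (8 * K) * (δ ^ 2 / (4 * q)) := by
      field_simp
      ring

/-- fixed arcs, with the maximum -/
lemma fixed' {P : ℕ} (hP : 0 < P) {δ : ℝ} (hδ : 0 < δ) (hδ1 : δ ≤ 1) :
    ∃ c : ℝ, 0 < c ∧ ∀ N R : ℕ, 1 ≤ c * R → (N : ℝ) ≤ c * (R : ℝ) ^ 2 → ∀ a, Coef P a → ∀ α : ℝ,
      c * R ≤ ∫ x in α..(α + δ), ‖expSum a N R x‖ ^ 2 ∧
      ∃ x ∈ Set.Icc α (α + δ), c * Real.sqrt R ≤ ‖expSum a N R x‖ := by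
  obtain ⟨c, hc, h⟩ := fixed hP hδ hδ1
  have hs : 0 < Real.sqrt c := Real.sqrt_pos.2 hc
  refine ⟨min c (Real.sqrt c), lt_min hc hs, fun N R h1 h2 a ha α => ?_⟩
  have hR0 : (0 : ℝ) ≤ R := Nat.cast_nonneg R
  have hm1 : min c (Real.sqrt c) ≤ c := min_le_left _ _
  have hm2 : min c (Real.sqrt c) ≤ Real.sqrt c := min_le_right _ _
  have h3 := h N R (h1.trans (by gcongr)) (h2.trans (by gcongr)) a ha α
  have hRpos : (0 : ℝ) < R := by
    rcases hR0.eq_or_lt with h | h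
    · rw [← h, mul_zero] at h1
      linarith
    · exact h
  refine ⟨le_trans (by gcongr) h3, ?_⟩
  obtain ⟨x, hx, h4⟩ := sup_of_int hδ hδ1 a N R α (by positivity) h3
  refine ⟨x, hx, le_trans ?_ h4⟩
  rw [Real.sqrt_mul hc.le]
  gcongr

lemma logX : ∀ᶠ X : ℕ in atTop, Real.log ((X : ℝ) + 1) ≤ X * (Real.log 2 - 1 / 2) := by
  have h1 : ∀ᶠ x : ℝ in atTop, ‖Real.log x‖ ≤ (1 / 20) * ‖x‖ :=
    Real.isLittleO_log_id_atTop.def (by norm_num)
  have h2 : Tendsto (fun X : ℕ => (X : ℝ) + 1) atTop atTop :=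
    tendsto_atTop_add_const_right _ _ tendsto_natCast_atTop_atTop
  filter_upwards [h2.eventually h1, eventually_ge_atTop 1] with X h3 h4
  have h5 : (1 : ℝ) ≤ X := by exact_mod_cast h4
  rw [Real.norm_of_nonneg (Real.log_nonneg (by linarith)), Real.norm_of_nonneg (by linarith)] at h3
  have h6 := Real.log_two_gt_d9
  nlinarith

/-- short arcs -/
lemma shrink {P : ℕ} (hP : 0 < P) {ε : ℝ} (hε : 0 < ε) (hε1 : ε ≤ 1 / 2) :
    ∃ C R₀ : ℝ, ∀ N R : ℕ, R₀ ≤ R → (N : ℝ) ≤ (R : ℝ) ^ (2 - 2 * ε) → ∀ δ : ℝ, 0 < δ → δ ≤ 1 →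
      C * Real.log (Real.log R) ^ 2 ≤ δ * Real.log R → ∀ a, Coef P a → ∀ α : ℝ,
      (R : ℝ) ^ (1 - ε) ≤ ∫ x in α..(α + δ), ‖expSum a N R x‖ ^ 2 := by
  have hl16 : 0 < Real.log 16 := Real.log_pos (by norm_num)
  have hl16' : 1 ≤ Real.log 16 := by
    have h1 : Real.log 16 = 4 * Real.log 2 := by
      rw [show (16 : ℝ) = 2 ^ 4 by norm_num, Real.log_pow]
      norm_num
    have := Real.log_two_gt_d9
    linarith
  have hP1 : (1 : ℝ) ≤ P := by exact_mod_cast hP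
  obtain ⟨c, hc⟩ : ∃ c, c = ε / (2 * Real.log 16) := ⟨_, rfl⟩
  have hc0 : 0 < c := by
    rw [hc]
    positivity
  have hc1 : c ≤ 1 := by
    rw [hc, div_le_one (by positivity)]
    linarith
  obtain ⟨C, hC⟩ : ∃ C, C = 4 * (91 + (P : ℝ)) / c := ⟨_, rfl⟩
  have hC2 : 2 ≤ C := by
    rw [hC, le_div_iff₀ hc0]
    linarith
  have tlog : Tendsto (fun R : ℕ => Real.log (R : ℝ)) atTop atTop :=
    Real.tendsto_log_atTop.comp tendsto_natCast_atTop_atTop
  have tloglog : Tendsto (fun R : ℕ => Real.log (Real.log (R : ℝ))) atTop atTop :=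
    Real.tendsto_log_atTop.comp tlog
  have tX : Tendsto (fun R : ℕ => ⌊c * Real.log (R : ℝ)⌋₊) atTop atTop :=
    tendsto_nat_floor_atTop.comp (tlog.const_mul_atTop hc0)
  have tpow : Tendsto (fun R : ℕ => (R : ℝ) ^ (ε / 2)) atTop atTop :=
    (tendsto_rpow_atTop (by positivity)).comp tendsto_natCast_atTop_atTop
  have e3 : ∀ᶠ R : ℕ in atTop, 5408 * P * (Real.log (R : ℝ)) ^ 4 ≤ (R : ℝ) ^ (ε / 2) := by
    have h1 : (fun x : ℝ => Real.log x ^ (4 : ℝ)) =o[atTop] fun x => x ^ (ε / 2) :=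
      isLittleO_log_rpow_rpow_atTop _ (by positivity)
    have h2 := (h1.def (c := 1 / (5408 * P)) (by positivity))
    filter_upwards [tendsto_natCast_atTop_atTop.eventually h2, tlog.eventually_ge_atTop 0] with R h3 h4
    rw [Real.norm_of_nonneg (by positivity), Real.norm_of_nonneg (by positivity)] at h3
    have h5 : Real.log (R : ℝ) ^ (4 : ℝ) = Real.log (R : ℝ) ^ (4 : ℕ) := by
      rw [← Real.rpow_natCast]
      norm_num
    rw [h5] at h3
    calc 5408 * P * (Real.log (R : ℝ)) ^ 4 ≤ 5408 * P * (1 / (5408 * P) * (R : ℝ) ^ (ε / 2)) := by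
          gcongr
      _ = (R : ℝ) ^ (ε / 2) := by field_simp
  have hall := ((tloglog.eventually_ge_atTop 1).and ((tpow.eventually_ge_atTop (24 * P)).and
    (e3.and ((tX.eventually logX).and ((tX.eventually_ge_atTop 2).and
    ((tlog.eventually_ge_atTop (2 / c)).and (eventually_ge_atTop 1)))))))
  obtain ⟨R₀, hR₀⟩ := eventually_atTop.1 hall
  refine ⟨C, R₀, fun N R hR hN δ hδ hδ1 hδC a ha α => ?_⟩
  obtain ⟨f1, f2, f3, f4, f5, f6, f7⟩ := hR₀ R (by exact_mod_cast hR)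
  obtain ⟨X, hX⟩ : ∃ X, X = ⌊c * Real.log (R : ℝ)⌋₊ := ⟨_, rfl⟩
  rw [← hX] at f4 f5
  obtain ⟨L, hL⟩ : ∃ L, L = Real.log (R : ℝ) := ⟨_, rfl⟩
  rw [← hL] at f1 f3 f6 hX hδC
  obtain ⟨LL, hLL⟩ : ∃ LL, LL = Real.log L := ⟨_, rfl⟩
  rw [← hLL] at f1 hδC
  have hR1 : (1 : ℝ) ≤ R := by exact_mod_cast f7
  have hRpos : (0 : ℝ) < R := by linarith
  have hL0 : 0 < L := by
    have : 0 < 2 / c := by positivity
    linarith
  have hLLL : LL ≤ L := by
    rw [hLL]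
    have := Real.log_le_sub_one_of_pos hL0
    linarith
  have hX1 : (X : ℝ) ≤ c * L := by
    rw [hX]
    exact Nat.floor_le (by positivity)
  have hX2 : c / 2 * L ≤ X := by
    have h1 := Nat.lt_floor_add_one (c * L)
    rw [← hX] at h1
    have h2 : 2 ≤ c * L := by
      have := (div_le_iff₀ hc0).1 f6
      linarith
    linarith
  have hX3 : (2 : ℝ) ≤ X := by exact_mod_cast f5
  obtain ⟨A, hA⟩ : ∃ A, A = (R : ℝ) ^ (ε / 2) := ⟨_, rfl⟩
  rw [← hA] at f2 f3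
  have hA0 : 0 < A := by
    rw [hA]
    positivity
  have h16 : (16 : ℝ) ^ X ≤ A := by
    rw [hA, ← Real.rpow_natCast, Real.rpow_def_of_pos (by norm_num), Real.rpow_def_of_pos hRpos]
    refine Real.exp_le_exp.2 ?_
    rw [← hL]
    calc Real.log 16 * X ≤ Real.log 16 * (c * L) := mul_le_mul_of_nonneg_left hX1 hl16.le
      _ = L * (ε / 2) := by
        rw [hc]
        field_simp
  obtain ⟨k, H, hk, hH, hkH, hkle, hHle⟩ := win_H hδ hδ1
  have hLL0 : 0 < LL := by linarith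
  have hδL : 1 ≤ δ * L := by
    refine le_trans ?_ hδC
    nlinarith
  have hlog : Real.log (2 / δ) ≤ LL := by
    rw [hLL]
    refine Real.log_le_log (by positivity) ?_
    rw [div_le_iff₀ hδ]
    have : 2 ≤ C * LL ^ 2 := by nlinarith
    linarith
  have hk6 : (k : ℝ) ≤ 6 * LL := by linarith
  obtain ⟨W, hW⟩ : ∃ W, W = LL / δ := ⟨_, rfl⟩
  have hW1 : 1 ≤ W := by
    rw [hW, le_div_iff₀ hδ]
    linarith
  have hHW' : (H : ℝ) ≤ 30 * W := by
    refine hHle.trans ?_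
    rw [hW]
    calc 5 * (k : ℝ) / δ ≤ 5 * (6 * LL) / δ := by gcongr
      _ = 30 * (LL / δ) := by ring
  have hWle : W * (C * LL) ≤ L := by
    rw [hW]
    calc LL / δ * (C * LL) = (C * LL ^ 2) / δ := by ring
      _ ≤ (δ * L) / δ := by gcongr
      _ = L := by field_simp
  have hlogX : Real.log X ≤ LL := by
    rw [hLL]
    refine Real.log_le_log (by linarith) (hX1.trans ?_)
    nlinarith
  have hpi := pi_big hc0 hC hHW' hW1 hWle hLL0 hX2 hX3 hlogX f4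
  obtain ⟨B, hB⟩ : ∃ B, B = (R : ℝ) ^ (1 - ε) := ⟨_, rfl⟩
  have hRε : (1 : ℝ) ≤ B := by
    rw [hB]
    exact Real.one_le_rpow hR1 (by linarith)
  have hsqrt : Real.sqrt (N + R) ≤ 2 * B := by
    refine Real.sqrt_le_iff.2 ⟨by linarith, ?_⟩
    have h1 : (R : ℝ) ≤ (R : ℝ) ^ (2 - 2 * ε) := by
      calc (R : ℝ) = (R : ℝ) ^ (1 : ℝ) := (Real.rpow_one _).symm
        _ ≤ _ := Real.rpow_le_rpow_of_exponent_le hR1 (by linarith)
    have h2 : B ^ 2 = (R : ℝ) ^ (2 - 2 * ε) := by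
      rw [hB, ← Real.rpow_natCast, ← Real.rpow_mul hRpos.le]
      congr 1
      push_cast
      ring
    rw [mul_pow, h2]
    have h3 : 0 ≤ (R : ℝ) ^ (2 - 2 * ε) := by positivity
    linarith
  have hsplit : A * A * B = R := by
    rw [hA, hB, ← Real.rpow_add hRpos, ← Real.rpow_add hRpos]
    have : ε / 2 + ε / 2 + (1 - ε) = 1 := by ring
    rw [this, Real.rpow_one]
  have hbig : 8 * (A * P) * (1 + Real.sqrt (N + R)) ≤ (R : ℝ) := by
    have h1 : 1 + Real.sqrt (N + R) ≤ 3 * B := by linarith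
    have h2 : 8 * (A * P) * (1 + Real.sqrt (N + R)) ≤ 8 * (A * P) * (3 * B) :=
      mul_le_mul_of_nonneg_left h1 (by positivity)
    have h3 : 8 * (A * P) * (3 * B) = A * (24 * P) * B := by ring
    have h4 : A * (24 * P) * B ≤ A * A * B :=
      mul_le_mul_of_nonneg_right (mul_le_mul_of_nonneg_left f2 hA0.le) (by linarith)
    linarith
  refine le_trans ?_ (core hP hδ hδ1 hk hH hkH hpi h16 N R hbig a ha α)
  rw [← hB]
  have hδ2 : 1 / L ≤ δ := by
    rw [div_le_iff₀ hL0]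
    exact hδL
  have hk13 : 2 * (k : ℝ) + 1 ≤ 13 * L := by linarith
  have hB0 : 0 < B := by linarith
  have hP0 : (0 : ℝ) < P := by linarith
  have hfin : B * (5408 * (A * P) * L ^ 4) ≤ R := by
    have h1 : B * (5408 * (A * P) * L ^ 4) = A * (5408 * P * L ^ 4) * B := by ring
    have h2 : A * (5408 * P * L ^ 4) * B ≤ A * A * B :=
      mul_le_mul_of_nonneg_right (mul_le_mul_of_nonneg_left f3 hA0.le) hB0.le
    linarith
  have hquot : (1 / L) ^ 2 / (4 * (13 * L) ^ 2) ≤ δ ^ 2 / (4 * (2 * k + 1) ^ 2) := by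
    have hk0 : (0 : ℝ) ≤ k := Nat.cast_nonneg k
    gcongr
  calc B ≤ R / (5408 * (A * P) * L ^ 4) := by
        rw [le_div_iff₀ (by positivity)]
        exact hfin
    _ = R / (8 * (A * P)) * ((1 / L) ^ 2 / (4 * (13 * L) ^ 2)) := by
        field_simp
        ring
    _ ≤ R / (8 * (A * P)) * (δ ^ 2 / (4 * (2 * k + 1) ^ 2)) :=
        mul_le_mul_of_nonneg_left hquot (by positivity)

/-- weights -/
lemma weighted {P : ℕ} (hP : 0 < P) (g : ℝ → ℝ) (hg : Continuous g) (hg0 : ∀ x, 0 ≤ g x)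
    (hg1 : ∃ x ∈ Set.Icc (0 : ℝ) 1, 0 < g x) :
    ∃ c : ℝ, 0 < c ∧ ∀ N R : ℕ, 1 ≤ c * R → (N : ℝ) ≤ c * (R : ℝ) ^ 2 → ∀ a, Coef P a →
      c * R ≤ ∫ x in (0 : ℝ)..1, g x * ‖expSum a N R x‖ ^ 2 := by
  obtain ⟨x0, hx0, hgx⟩ := hg1
  obtain ⟨η, hη, hball⟩ := Metric.continuous_iff.1 hg x0 (g x0 / 2) (by linarith)
  set δ : ℝ := min (η / 2) (1 / 2) with hδ
  have hδ0 : 0 < δ := lt_min (by linarith) (by norm_num)
  have hδ1 : δ ≤ 1 / 2 := min_le_right _ _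
  have hδ2 : δ ≤ η / 2 := min_le_left _ _
  obtain ⟨α, hα0, hα1, hα2, hα3⟩ : ∃ α : ℝ, 0 ≤ α ∧ α + δ ≤ 1 ∧ x0 - δ ≤ α ∧ α ≤ x0 := by
    rcases le_or_gt x0 (1 / 2) with h | h
    · exact ⟨x0, hx0.1, by linarith, by linarith, le_rfl⟩
    · exact ⟨x0 - δ, by linarith, by linarith [hx0.2], le_rfl, by linarith⟩
  obtain ⟨c, hc, h⟩ := fixed hP hδ0 (by linarith)
  have hgm : 0 < min 1 (g x0 / 2) := lt_min one_pos (by linarith)
  refine ⟨c * min 1 (g x0 / 2), by positivity, fun N R h1 h2 a ha => ?_⟩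
  have hR0 : (0 : ℝ) ≤ R := Nat.cast_nonneg R
  have hm1 : min 1 (g x0 / 2) ≤ 1 := min_le_left _ _
  have hm2 : min 1 (g x0 / 2) ≤ g x0 / 2 := min_le_right _ _
  have hcm : c * min 1 (g x0 / 2) ≤ c := by nlinarith
  have h3 := h N R (h1.trans (by gcongr)) (h2.trans (by gcongr)) a ha α
  have hSc : Continuous fun x => ‖expSum a N R x‖ ^ 2 := by
    simp only [expSum_eq]
    exact (S_cont a N R).norm.pow 2
  have hgSc : Continuous fun x => g x * ‖expSum a N R x‖ ^ 2 := hg.mul hSc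
  calc c * min 1 (g x0 / 2) * R = min 1 (g x0 / 2) * (c * R) := by ring
    _ ≤ g x0 / 2 * ∫ x in α..(α + δ), ‖expSum a N R x‖ ^ 2 := by
        refine mul_le_mul hm2 h3 (by positivity) (by linarith)
    _ = ∫ x in α..(α + δ), g x0 / 2 * ‖expSum a N R x‖ ^ 2 := by
        rw [intervalIntegral.integral_const_mul]
    _ ≤ ∫ x in α..(α + δ), g x * ‖expSum a N R x‖ ^ 2 := by
        refine intervalIntegral.integral_mono_on (by linarith)
          ((continuous_const.mul hSc).intervalIntegrable _ _)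
          (hgSc.intervalIntegrable _ _) fun x hx => ?_
        have h4 : dist x x0 < η := by
          rw [Real.dist_eq, abs_lt]
          constructor <;> linarith [hx.1, hx.2]
        have h5 := hball x h4
        rw [Real.dist_eq, abs_lt] at h5
        have : g x0 / 2 ≤ g x := by linarith [h5.1]
        gcongr
    _ ≤ ∫ x in (0 : ℝ)..1, g x * ‖expSum a N R x‖ ^ 2 := by
        refine intervalIntegral.integral_mono_interval hα0 (by linarith) hα1 ?_
          (hgSc.intervalIntegrable _ _)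
        exact Filter.Eventually.of_forall fun x => mul_nonneg (hg0 x) (by positivity)

lemma coef_mu (P : ℕ) : Coef P fun n => ((ArithmeticFunction.moebius n : ℤ) : ℂ) where
  zero n hn := by
    rw [ArithmeticFunction.moebius_eq_zero_of_not_squarefree hn]
    simp
  one n hn _ := by
    rw [Complex.norm_intCast]
    have := ArithmeticFunction.abs_moebius_eq_one_of_squarefree hn
    exact_mod_cast this
  le n := by
    rw [Complex.norm_intCast]
    have := ArithmeticFunction.abs_moebius_le_one (n := n)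
    exact_mod_cast this

lemma F_le (R : ℕ) (x : ℝ) : ‖F R x‖ ≤ R := by
  unfold F
  rw [expSum_eq]
  unfold S
  refine (norm_sum_le _ _).trans ?_
  have : ∀ n ∈ Finset.Ioc 0 (0 + R), ‖((ArithmeticFunction.moebius n : ℤ) : ℂ) * e (n * x)‖ ≤ 1 := by
    intro n _
    rw [norm_mul, e_norm, mul_one]
    exact (coef_mu 1).le n
  refine (Finset.sum_le_card_nsmul _ _ _ this).trans ?_
  simp

lemma F_fract (R : ℕ) (x : ℝ) : F R (Int.fract x) = F R x := by
  unfold F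
  rw [expSum_eq, expSum_eq]
  unfold S
  refine Finset.sum_congr rfl fun n _ => ?_
  congr 1
  have : (n : ℝ) * x = n * Int.fract x + (((n : ℤ) * ⌊x⌋ : ℤ) : ℝ) := by
    push_cast
    have := Int.floor_add_fract x
    nlinarith
  rw [this, e_add, e_int, mul_one]

lemma mem_one (α β : ℝ) : (1 : ℝ) ∈ {a : ℝ | 0 ≤ a ∧ ∃ C : ℝ, ∀ R : ℕ, 1 ≤ R →
    ∀ x ∈ Set.Icc α β, ‖F R x‖ ≤ C * (R : ℝ) ^ a} := by
  refine ⟨zero_le_one, 1, fun R _ x _ => ?_⟩
  rw [Real.rpow_one, one_mul]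
  exact F_le R x

lemma bdd (α β : ℝ) : BddBelow {a : ℝ | 0 ≤ a ∧ ∃ C : ℝ, ∀ R : ℕ, 1 ≤ R →
    ∀ x ∈ Set.Icc α β, ‖F R x‖ ≤ C * (R : ℝ) ^ a} := ⟨0, fun _ ha => ha.1⟩

lemma growth_le (α β : ℝ) : growthExp α β ≤ growthExp 0 1 := by
  refine csInf_le_csInf (bdd α β) ⟨1, mem_one 0 1⟩ ?_
  rintro a ⟨ha, C, hC⟩
  refine ⟨ha, C, fun R hR x _ => ?_⟩
  rw [← F_fract]
  exact hC R hR _ ⟨Int.fract_nonneg x, (Int.fract_lt_one x).le⟩

lemma growth_ge {α β : ℝ} (h : α < β) : 1 / 2 ≤ growthExp α β := by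
  refine le_csInf ⟨1, mem_one α β⟩ ?_
  rintro a ⟨ha, C, hC⟩
  by_contra hlt
  push Not at hlt
  set δ := min (β - α) 1 with hδ
  have hδ0 : 0 < δ := lt_min (by linarith) one_pos
  have hδ1 : δ ≤ 1 := min_le_right _ _
  have hδ2 : δ ≤ β - α := min_le_left _ _
  obtain ⟨c, hc, hfix⟩ := fixed' one_pos hδ0 hδ1
  have t1 : Tendsto (fun R : ℕ => (R : ℝ) ^ (1 / 2 - a)) atTop atTop :=
    (tendsto_rpow_atTop (by linarith)).comp tendsto_natCast_atTop_atTop
  have t2 : Tendsto (fun R : ℕ => c * (R : ℝ)) atTop atTop :=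
    tendsto_natCast_atTop_atTop.const_mul_atTop hc
  obtain ⟨R, h1, h2, h3⟩ := ((t1.eventually_gt_atTop (C / c)).and
    ((t2.eventually_ge_atTop 1).and (eventually_ge_atTop 1))).exists
  have hR1 : (1 : ℝ) ≤ R := by exact_mod_cast h3
  obtain ⟨-, x, hx, h4⟩ := hfix 0 R h2 (by push_cast; positivity) _ (coef_mu 1) α
  have h5 := hC R h3 x ⟨hx.1, hx.2.trans (by linarith)⟩
  have h6 : c * Real.sqrt R ≤ C * (R : ℝ) ^ a := h4.trans h5
  have h7 : Real.sqrt R = (R : ℝ) ^ (1 / 2 - a) * (R : ℝ) ^ a := by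
    rw [← Real.rpow_add (by linarith), Real.sqrt_eq_rpow]
    congr 1
    ring
  rw [h7, ← mul_assoc] at h6
  have h8 : 0 < (R : ℝ) ^ a := by positivity
  have h9 : c * (R : ℝ) ^ (1 / 2 - a) ≤ C := le_of_mul_le_mul_right h6 h8
  rw [div_lt_iff₀ hc] at h1
  linarith

/-- **The Möbius exponential sum on every short arc.** Let `S(x) = ∑_{N < n ≤ N + R} a(n) e(nx)`
with coefficients which vanish exactly at the integers that are not squarefree, of absolute value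
one at the squarefree integers prime to `P` and at most one elsewhere, for instance `a = μ`.
(1) For every `δ > 0` there is `c > 0`, depending only on `P` and `δ`, such that for all `R ≥ 1/c`
and `N ≤ c R²` and all such coefficients the integral of `|S|²` over every arc of length `δ` is at
least `c R`, and `|S|` takes a value at least `c √R` on it.
(2) The same with `R^(1 - ε)` and `R^(1/2 - ε)`, for `N ≤ R^(2 - 2ε)` and every arc of length `δ` with
`δ ≥ C (log log R)² / log R`.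
(3) In (1) the arc may be replaced by any continuous weight `g ≥ 0` which is not zero on `[0, 1]`.
(4) `a = μ` is allowed, the growth exponent of `F_R` on each arc is between `1/2` and the growth
exponent on the circle, and Q1 is equivalent to the equality with `1/2` for every arc. -/
theorem result :
    (∀ P : ℕ, 0 < P → ∀ δ : ℝ, 0 < δ → δ ≤ 1 → ∃ c : ℝ, 0 < c ∧ ∀ N R : ℕ, 1 ≤ c * R →
      (N : ℝ) ≤ c * (R : ℝ) ^ 2 → ∀ a, Coef P a → ∀ α : ℝ,
      c * R ≤ ∫ x in α..(α + δ), ‖expSum a N R x‖ ^ 2 ∧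
      ∃ x ∈ Set.Icc α (α + δ), c * Real.sqrt R ≤ ‖expSum a N R x‖) ∧
    (∀ P : ℕ, 0 < P → ∀ ε : ℝ, 0 < ε → ε ≤ 1 / 2 → ∃ C R₀ : ℝ, ∀ N R : ℕ, R₀ ≤ R →
      (N : ℝ) ≤ (R : ℝ) ^ (2 - 2 * ε) → ∀ δ : ℝ, 0 < δ → δ ≤ 1 →
      C * Real.log (Real.log R) ^ 2 ≤ δ * Real.log R → ∀ a, Coef P a → ∀ α : ℝ,
      (R : ℝ) ^ (1 - ε) ≤ ∫ x in α..(α + δ), ‖expSum a N R x‖ ^ 2 ∧
      ∃ x ∈ Set.Icc α (α + δ), (R : ℝ) ^ (1 / 2 - ε) ≤ ‖expSum a N R x‖) ∧
    (∀ P : ℕ, 0 < P → ∀ g : ℝ → ℝ, Continuous g → (∀ x, 0 ≤ g x) →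
      (∃ x ∈ Set.Icc (0 : ℝ) 1, 0 < g x) → ∃ c : ℝ, 0 < c ∧ ∀ N R : ℕ, 1 ≤ c * R →
      (N : ℝ) ≤ c * (R : ℝ) ^ 2 → ∀ a, Coef P a →
      c * R ≤ ∫ x in (0 : ℝ)..1, g x * ‖expSum a N R x‖ ^ 2) ∧
    Coef 1 (fun n => ((ArithmeticFunction.moebius n : ℤ) : ℂ)) ∧
    (∀ α β : ℝ, α < β → 1 / 2 ≤ growthExp α β ∧ growthExp α β ≤ growthExp 0 1) ∧
    (growthExp 0 1 = 1 / 2 ↔ ∀ α β : ℝ, α < β → growthExp α β = 1 / 2) := by
  refine ⟨fun P hP δ hδ hδ1 => fixed' hP hδ hδ1, fun P hP ε hε hε1 => ?_,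
    fun P hP g hg hg0 hg1 => weighted hP g hg hg0 hg1, coef_mu 1,
    fun α β h => ⟨growth_ge h, growth_le α β⟩, ?_⟩
  · obtain ⟨C, R₀, h⟩ := shrink hP hε hε1
    refine ⟨C, max R₀ 1, fun N R hR hN δ hδ hδ1 hδC a ha α => ?_⟩
    have h1 := h N R ((le_max_left _ _).trans hR) hN δ hδ hδ1 hδC a ha α
    have hR1 : (1 : ℝ) ≤ R := (le_max_right _ _).trans hR
    have hRpos : (0 : ℝ) < R := by linarith
    refine ⟨h1, ?_⟩
    obtain ⟨x, hx, h2⟩ := sup_of_int hδ hδ1 a N R α (by positivity) h1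
    refine ⟨x, hx, le_trans ?_ h2⟩
    refine Real.le_sqrt_of_sq_le ?_
    rw [← Real.rpow_natCast, ← Real.rpow_mul hRpos.le]
    refine Real.rpow_le_rpow_of_exponent_le hR1 ?_
    push_cast
    linarith
  · constructor
    · intro h α β hαβ
      refine le_antisymm ?_ (growth_ge hαβ)
      rw [← h]
      exact growth_le α β
    · intro h
      exact h 0 1 one_pos

end Pool.Agent.Results.MP_b6b996_nt.EveryShortArc
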