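import Pool.Agent.Run7.h290.FT.C

set_option autoImplicit false

/-!
# MP_b6b996_nt: the Moebius exponential sum on translates of small sets

Let `F_R(x) = ∑_{n ≤ R} a_n e(nx)`, with arbitrary complex `a_n`, `|a_n| ≤ 1`, such as `a_n = μ(n)`. The question is whether
`F_R(x) = O(R^(1/2+ε))` uniformly in `x`. Here `x` runs over a translate `K + y` of a set `K`; the set may depend on the dyadic
interval which contains `R`.

* (1) If `K_k` is covered by `O(2^(k(s+ε)))` intervals of length `2^(-k)` for every `ε > 0` (in particular if all `K_k` are one set of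
  upper box dimension at most `s`), then the set of the `y` for which `|F_R(x + y)| ≥ R^α` for infinitely many `R` and some
  `x ∈ K_k`, `2^k ≤ R < 2^(k+1)`, has Hausdorff dimension at most `s + 2 - 2α`.
* (2) For `μ` and a fixed set `K`: for almost all `y` the growth exponent of the supremum of `|F_R|` over `K + y` is at most
  `(1 + s)/2`.
* (3) For `μ` and every `σ ≥ 0`: for almost all `y`, for all `ε > 0` and all large `R`, `|F_R(y + b/q)| ≤ R^(1/2+σ+ε)` for all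
  fractions `b/q` with `q ≤ R^σ`.

The proof uses the mean square of `F_R` over short windows (Sobolev, Gallagher), the maximal function of Rademacher and Menshov,
and coverings.
-/

open Filter Topology MeasureTheory

namespace Pool.Agent.Results.MP_b6b996_nt.FractalTranslates

/-- the exponential sum `∑_{n ≤ R} a_n e(nx)` -/
noncomputable def F (a : ℕ → ℂ) (R : ℕ) (x : ℝ) : ℂ :=
  ∑ n ∈ Finset.Icc 1 R, a n * Complex.exp (2 * Real.pi * Complex.I * n * x)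

/-- the Moebius function -/
noncomputable def mu (n : ℕ) : ℂ := ((ArithmeticFunction.moebius n : ℤ) : ℂ)

/-- for every `ε > 0`, `K k` is covered by `O(2^(k(s+ε)))` intervals of length `2^(-k)` -/
def Covered (K : ℕ → Set ℝ) (s : ℝ) : Prop := ∀ ε : ℝ, 0 < ε → ∃ C : ℝ, 0 < C ∧ ∀ k : ℕ, ∃ A : Finset ℝ,
  (A.card : ℝ) ≤ C * ((2:ℝ) ^ k) ^ (s + ε) ∧ K k ⊆ ⋃ c ∈ A, Set.Icc c (c + ((2:ℝ) ^ k)⁻¹)

/-- the `y` for which, for infinitely many `R`, `|F_R(x + y)| ≥ R^α` for some `x` in `K k`, where `2^k ≤ R < 2^(k+1)` -/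
def Exceptional (a : ℕ → ℂ) (α : ℝ) (K : ℕ → Set ℝ) : Set ℝ :=
  {y : ℝ | ∃ᶠ R : ℕ in atTop, ∃ x ∈ K (Nat.log 2 R), (R : ℝ) ^ α ≤ ‖F a R (x + y)‖}

lemma F_eq (a : ℕ → ℂ) (R : ℕ) (x : ℝ) : F a R x = Pool.Agent.Run7.h290.FT.P a (Finset.Ioc 0 R) x := by
  unfold F Pool.Agent.Run7.h290.FT.P Pool.Agent.Run7.h290.FT.e
  have h : Finset.Icc 1 R = Finset.Ioc 0 R := by
    ext n
    simp only [Finset.mem_Icc, Finset.mem_Ioc]
    omega
  rw [h]
  refine Finset.sum_congr rfl fun n _ => ?_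
  congr 2
  push_cast
  ring

lemma mu_le (n : ℕ) : ‖mu n‖ ≤ 1 := by
  unfold mu
  rw [Complex.norm_intCast]
  exact_mod_cast ArithmeticFunction.abs_moebius_le_one

lemma F_int (a : ℕ → ℂ) (R : ℕ) (x : ℝ) (m : ℤ) : F a R (x + m) = F a R x := by
  unfold F
  refine Finset.sum_congr rfl fun n _ => ?_
  have e1 : 2 * (Real.pi : ℂ) * Complex.I * n * ((x + m : ℝ) : ℂ) = 2 * Real.pi * Complex.I * n * x +
      ((n * m : ℤ) : ℂ) * (2 * Real.pi * Complex.I) := by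
    push_cast
    ring
  rw [e1, Complex.exp_add, Complex.exp_int_mul_two_pi_mul_I, mul_one]

/-- the exceptional sets for all `ε` at once -/
lemma ae_all {K : ℕ → Set ℝ} {β : ℝ} (hβ : 0 ≤ β) (h : ∀ α : ℝ, 0 ≤ α → β < α → volume (Exceptional mu α K) = 0) :
    ∀ᵐ y : ℝ, ∀ ε : ℝ, 0 < ε → ∀ᶠ R : ℕ in atTop, ∀ x ∈ K (Nat.log 2 R), ‖F mu R (x + y)‖ ≤ (R : ℝ) ^ (β + ε) := by
  have h1 : ∀ j : ℕ, ∀ᵐ y : ℝ, y ∉ Exceptional mu (β + 1 / ((j:ℝ) + 1)) K := by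
    intro j
    have hj : (0:ℝ) < 1 / ((j:ℝ) + 1) := by positivity
    exact measure_eq_zero_iff_ae_notMem.1 (h _ (by linarith) (by linarith))
  filter_upwards [ae_all_iff.2 h1] with y hy ε hε
  obtain ⟨j, hj⟩ := exists_nat_one_div_lt hε
  have h2 := hy j
  unfold Exceptional at h2
  rw [Set.mem_setOf_eq, not_frequently] at h2
  filter_upwards [h2, eventually_ge_atTop 1] with R hR hR1 x hx
  push Not at hR
  refine (hR x hx).le.trans ?_
  exact Real.rpow_le_rpow_of_exponent_le (by exact_mod_cast hR1) (by linarith)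

/-- the fractions with denominators at most `R^σ` -/
def Fr (σ : ℝ) (k : ℕ) : Set ℝ := {x : ℝ | ∃ b q : ℕ, 1 ≤ q ∧ (q:ℝ) ≤ ((2:ℝ) ^ (k + 1)) ^ σ ∧ b < q ∧ x = (b:ℝ) / q}

lemma Fr_cov {σ : ℝ} (hσ : 0 ≤ σ) : Covered (Fr σ) (2 * σ) := by
  intro ε hε
  refine ⟨4 * (2:ℝ) ^ (2 * σ), by positivity, fun k => ?_⟩
  classical
  obtain ⟨X, hX⟩ : ∃ X : ℝ, X = ((2:ℝ) ^ (k + 1)) ^ σ := ⟨_, rfl⟩
  have h2k : (1:ℝ) ≤ 2 ^ (k + 1) := one_le_pow₀ (by norm_num)
  have hX1 : 1 ≤ X := by rw [hX]; exact Real.one_le_rpow h2k hσ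
  obtain ⟨N, hN⟩ : ∃ N : ℕ, N = ⌊X⌋₊ := ⟨_, rfl⟩
  have hNX : (N:ℝ) ≤ X := by rw [hN]; exact Nat.floor_le (by linarith)
  refine ⟨((Finset.range (N + 1)) ×ˢ (Finset.range (N + 1))).image fun p => (p.1 : ℝ) / p.2, ?_, ?_⟩
  · have h1 : ((((Finset.range (N + 1)) ×ˢ (Finset.range (N + 1))).image fun p : ℕ × ℕ => (p.1 : ℝ) / p.2).card : ℝ) ≤
        ((N:ℝ) + 1) * ((N:ℝ) + 1) := by
      have := Finset.card_image_le (s := (Finset.range (N + 1)) ×ˢ (Finset.range (N + 1))) (f := fun p : ℕ × ℕ => (p.1 : ℝ) / p.2)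
      rw [Finset.card_product, Finset.card_range] at this
      exact_mod_cast this
    refine h1.trans ?_
    have h2 : ((N:ℝ) + 1) * ((N:ℝ) + 1) ≤ (2 * X) * (2 * X) := by
      have : (0:ℝ) ≤ N := Nat.cast_nonneg N
      gcongr <;> linarith
    refine h2.trans ?_
    have h3 : (0:ℝ) < 2 ^ k := by positivity
    have e1 : X * X = (2:ℝ) ^ (2 * σ) * ((2:ℝ) ^ k) ^ (2 * σ) := by
      rw [hX, ← Real.rpow_add (by positivity), ← Real.mul_rpow (by norm_num) h3.le]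
      congr 1
      · ring
      · ring
    have h4 : ((2:ℝ) ^ k) ^ (2 * σ) ≤ ((2:ℝ) ^ k) ^ (2 * σ + ε) :=
      Real.rpow_le_rpow_of_exponent_le (one_le_pow₀ (by norm_num)) (by linarith)
    calc (2 * X) * (2 * X) = 4 * (X * X) := by ring
      _ = 4 * (2:ℝ) ^ (2 * σ) * ((2:ℝ) ^ k) ^ (2 * σ) := by rw [e1]; ring
      _ ≤ _ := by gcongr
  · intro x hx
    obtain ⟨b, q, hq1, hq2, hbq, rfl⟩ := hx
    have hqN : q ≤ N := by rw [hN]; exact Nat.le_floor (by rw [hX]; exact hq2)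
    simp only [Set.mem_iUnion, exists_prop]
    refine ⟨(b:ℝ) / q, Finset.mem_image.2 ⟨(b, q), ?_, rfl⟩, le_rfl, ?_⟩
    · rw [Finset.mem_product, Finset.mem_range, Finset.mem_range]
      simp only
      omega
    · have : (0:ℝ) < ((2:ℝ) ^ k)⁻¹ := by positivity
      linarith

theorem result :
    (∀ a : ℕ → ℂ, (∀ n, ‖a n‖ ≤ 1) → ∀ (s α : ℝ) (K : ℕ → Set ℝ), 0 ≤ α → Covered K s →
      dimH (Exceptional a α K) ≤ ENNReal.ofReal (s + 2 - 2 * α)) ∧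
    (∀ (s : ℝ) (K : Set ℝ), 0 ≤ s → Covered (fun _ => K) s →
      ∀ᵐ y : ℝ, ∀ ε : ℝ, 0 < ε → ∀ᶠ R : ℕ in atTop, ∀ x ∈ K, ‖F mu R (x + y)‖ ≤ (R : ℝ) ^ ((1 + s) / 2 + ε)) ∧
    (∀ σ : ℝ, 0 ≤ σ → ∀ᵐ y : ℝ, ∀ ε : ℝ, 0 < ε → ∀ᶠ R : ℕ in atTop, ∀ (q : ℕ) (b : ℤ), 1 ≤ q → (q:ℝ) ≤ (R:ℝ) ^ σ →
      ‖F mu R (y + b / q)‖ ≤ (R : ℝ) ^ (1 / 2 + σ + ε)) := by
  have hE : ∀ (a : ℕ → ℂ) (α : ℝ) (K : ℕ → Set ℝ), Exceptional a α K = Pool.Agent.Run7.h290.FT.Bad a α K := by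
    intro a α K
    unfold Exceptional Pool.Agent.Run7.h290.FT.Bad
    simp_rw [F_eq]
  refine ⟨?_, ?_, ?_⟩
  · intro a ha s α K hα hK
    rw [hE]
    exact Pool.Agent.Run7.h290.FT.dim_le ha hα hK
  · intro s K hs hK
    refine ae_all (K := fun _ => K) (by positivity) ?_
    intro α hα hsα
    rw [hE]
    exact Pool.Agent.Run7.h290.FT.ae mu_le hα hsα hK
  · intro σ hσ
    have h1 := ae_all (K := Fr σ) (β := 1 / 2 + σ) (by positivity) (by
      intro α hα hsα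
      rw [hE]
      exact Pool.Agent.Run7.h290.FT.ae mu_le hα (by linarith) (Fr_cov hσ))
    filter_upwards [h1] with y hy ε hε
    filter_upwards [hy ε hε, eventually_ge_atTop 1] with R hR hR1 q b hq1 hq2
    have hq0 : (0:ℝ) < q := by exact_mod_cast hq1
    have hqz : (0:ℤ) < q := by exact_mod_cast hq1
    obtain ⟨b', hb'⟩ := Int.eq_ofNat_of_zero_le (Int.emod_nonneg b hqz.ne')
    have hlt : b' < q := by
      have := Int.emod_lt_of_pos b hqz
      rw [hb'] at this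
      exact_mod_cast this
    have hb : b = b' + q * (b / q) := by
      rw [← hb']
      exact (Int.emod_add_mul_ediv b q).symm
    have e1 : y + (b:ℝ) / q = ((b':ℝ) / q + y) + ((b / (q:ℤ) : ℤ) : ℝ) := by
      have h2 : (b:ℝ) = b' + q * ((b / (q:ℤ) : ℤ) : ℝ) := by exact_mod_cast hb
      rw [h2, add_div, mul_div_cancel_left₀ _ hq0.ne']
      ring
    rw [e1, F_int]
    refine hR _ ⟨b', q, hq1, hq2.trans ?_, hlt, rfl⟩
    refine Real.rpow_le_rpow (by positivity) ?_ hσ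
    exact_mod_cast (Nat.lt_pow_succ_log_self (by norm_num) R).le

end Pool.Agent.Results.MP_b6b996_nt.FractalTranslates
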