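import Mathlib
import Pool.Agent.Run7.h794.MK.SupR
import Pool.Agent.Run7.h794.MK.AllL

set_option autoImplicit false

/-!
# Sup norms of Moebius and Liouville exponential sums along random sequences of shifts

For almost all sequences `i_0, i_1, ..` of members of ANY flat family inside an interval of length `q`, `N^(1/3) log^C N <= q <= Bq N`,
and for all but `N / log^A N` of the integers `n <= N`: for all `m <= log^U N`, all dilations `k <= log^T N` and ALL real `x`,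
the sum of `mu(n + c + k y_(i_l)) e(l x)` over `l < m` is at most `K sqrt(m log log N)`; the same for the Liouville function, for
which the supremum over `x` is at least `sqrt m`.
-/

namespace Pool.Agent.Results.MP_b6b996_nt.RandomSparseSums

open Finset
open Pool.Agent.N384.MQ (Flat)

/-- the sum over `l < m` of `f(Y_l) e(l x)` -/
noncomputable def P (f : ℕ → ℤ) {M : ℕ} (Y : Fin M → ℕ) (m : ℕ) (x : ℝ) : ℂ :=
  ∑ l : Fin M, if (l : ℕ) < m then ((f (Y l) : ℤ) : ℂ) * Complex.exp (2 * Real.pi * Complex.I * (((l : ℕ) * x : ℝ) : ℂ)) else 0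

lemma P_mob {M : ℕ} (Y : Fin M → ℕ) (m : ℕ) (x : ℝ) :
    P (fun n => ArithmeticFunction.moebius n) Y m x = Pool.Agent.Run7.h794.MK.Pol Pool.Agent.Run7.h794.MK.mob Y m x := by
  unfold P Pool.Agent.Run7.h794.MK.Pol Pool.Agent.Run7.h794.MK.mob
  apply sum_congr rfl
  intro l _
  split_ifs
  · push_cast
    rfl
  · rfl

lemma lio_eq (n : ℕ) : ((ArithmeticFunction.liouville n : ℤ) : ℝ) = Pool.Agent.Run7.h794.MK.lio n := by
  unfold Pool.Agent.Run7.h794.MK.lio
  split_ifs with h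
  · rw [h]; simp
  · rw [ArithmeticFunction.liouville_apply h]
    push_cast
    rfl

lemma P_lio {M : ℕ} (Y : Fin M → ℕ) (m : ℕ) (x : ℝ) :
    P (fun n => ArithmeticFunction.liouville n) Y m x = Pool.Agent.Run7.h794.MK.Pol Pool.Agent.Run7.h794.MK.lio Y m x := by
  unfold P Pool.Agent.Run7.h794.MK.Pol
  apply sum_congr rfl
  intro l _
  split_ifs
  · rw [← lio_eq]
    push_cast
    rfl
  · rfl

theorem result (A T Bq U : ℕ) : ∃ V C N₀ : ℕ, ∃ K : ℝ, 0 < K ∧ ∀ N : ℕ, N₀ ≤ N → ∀ (q : ℕ) [NeZero q],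
    (N : ℝ) ^ (1 / 3 : ℝ) * Real.log N ^ C ≤ q → q ≤ Bq * N →
    ∀ {ι : Type} [DecidableEq ι] (s : Finset ι) (y : ι → ZMod q), s.Nonempty → Flat q (1 / Real.log N ^ V) s y →
    ∀ c : ℕ, (c : ℝ) ≤ N * Real.log N ^ T → ∀ M : ℕ, (M : ℝ) ≤ Real.log N ^ U →
    ∃ Bad ⊆ Fintype.piFinset (fun _ : Fin M => s), (Bad.card : ℝ) ≤ (s.card : ℝ) ^ M / Real.log N ^ A ∧
      ∀ i ∈ Fintype.piFinset (fun _ : Fin M => s), i ∉ Bad →
      ∃ E ⊆ Icc 1 N, (E.card : ℝ) ≤ N / Real.log N ^ A ∧ ∀ n ∈ Icc 1 N, n ∉ E →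
      ∀ k : ℕ, 1 ≤ k → (k : ℝ) ≤ Real.log N ^ T → ∀ m ≤ M,
      (∀ x : ℝ, ‖P (fun n => ArithmeticFunction.moebius n) (fun l => n + c + k * (y (i l)).val) m x‖ ≤
        K * √(m * Real.log (Real.log N))) ∧
      (∀ x : ℝ, ‖P (fun n => ArithmeticFunction.liouville n) (fun l => n + c + k * (y (i l)).val) m x‖ ≤
        K * √(m * Real.log (Real.log N))) ∧
      (∃ x : ℝ, √m ≤ ‖P (fun n => ArithmeticFunction.liouville n) (fun l => n + c + k * (y (i l)).val) m x‖) := by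
  classical
  obtain ⟨V₁, C₁, N₁, K₁, hK₁, h1⟩ := Pool.Agent.Run7.h794.MK.sup_sparse Pool.Agent.Run7.h794.MK.mob_abs
    Pool.Agent.Run7.h794.MK.law_mob (A + 1) T Bq U
  obtain ⟨V₂, C₂, N₂, K₂, hK₂, h2⟩ := Pool.Agent.Run7.h794.MK.sup_sparse Pool.Agent.Run7.h794.MK.lio_abs
    Pool.Agent.Run7.h794.MK.law_lio (A + 1) T Bq U
  obtain ⟨N₃, h3⟩ := Pool.Agent.Run7.h794.MK.ev_sup
  refine ⟨V₁ + V₂, C₁ + C₂, N₁ + N₂ + N₃, K₁ + K₂, by positivity, fun N hN q _ hq1 hq2 ι _ s y hs hf c hc M hM => ?_⟩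
  obtain ⟨a1, a2⟩ := h3 N (by omega)
  have hL1 : 1 ≤ Real.log (N : ℝ) := by linarith
  have hL0 : 0 < Real.log (N : ℝ) := by linarith
  have hs0 : (0 : ℝ) < s.card := by exact_mod_cast hs.card_pos
  have hf1 : Flat q (1 / Real.log N ^ V₁) s y := Pool.Agent.Run7.h794.MK.Flat.mono' hf (by
    apply one_div_le_one_div_of_le (by positivity)
    exact pow_le_pow_right₀ hL1 (Nat.le_add_right _ _))
  have hf2 : Flat q (1 / Real.log N ^ V₂) s y := Pool.Agent.Run7.h794.MK.Flat.mono' hf (by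
    apply one_div_le_one_div_of_le (by positivity)
    exact pow_le_pow_right₀ hL1 (Nat.le_add_left _ _))
  have hq11 : (N : ℝ) ^ (1 / 3 : ℝ) * Real.log N ^ C₁ ≤ q := le_trans (mul_le_mul_of_nonneg_left
    (pow_le_pow_right₀ hL1 (Nat.le_add_right _ _)) (by positivity)) hq1
  have hq12 : (N : ℝ) ^ (1 / 3 : ℝ) * Real.log N ^ C₂ ≤ q := le_trans (mul_le_mul_of_nonneg_left
    (pow_le_pow_right₀ hL1 (Nat.le_add_left _ _)) (by positivity)) hq1
  obtain ⟨B1, b11, b12, b13⟩ := h1 N (by omega) q hq11 hq2 s y hs hf1 c hc M hM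
  obtain ⟨B2, b21, b22, b23⟩ := h2 N (by omega) q hq12 hq2 s y hs hf2 c hc M hM
  have half : ∀ X : ℝ, 0 ≤ X → X / Real.log N ^ (A + 1) + X / Real.log N ^ (A + 1) ≤ X / Real.log N ^ A := by
    intro X hX
    rw [pow_succ, ← div_div, ← add_div, div_le_iff₀ hL0]
    have : 0 ≤ X / Real.log (N : ℝ) ^ A := by positivity
    nlinarith
  refine ⟨B1 ∪ B2, union_subset b11 b21, ?_, fun i hi hbad => ?_⟩
  · have : ((B1 ∪ B2).card : ℝ) ≤ B1.card + B2.card := by exact_mod_cast card_union_le _ _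
    exact (this.trans (add_le_add b12 b22)).trans (half _ (by positivity))
  · rw [mem_union, not_or] at hbad
    obtain ⟨E1, e11, e12, e13⟩ := b13 i hi hbad.1
    obtain ⟨E2, e21, e22, e23⟩ := b23 i hi hbad.2
    refine ⟨E1 ∪ E2, union_subset e11 e21, ?_, fun n hn hnE k hk1 hk2 m hm => ?_⟩
    · have : ((E1 ∪ E2).card : ℝ) ≤ E1.card + E2.card := by exact_mod_cast card_union_le _ _
      exact (this.trans (add_le_add e12 e22)).trans (half _ (by positivity))
    · rw [mem_union, not_or] at hnE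
      have hs1 : 0 ≤ √(m * Real.log (Real.log (N : ℝ))) := Real.sqrt_nonneg _
      refine ⟨fun x => ?_, fun x => ?_, ?_⟩
      · rw [P_mob]
        refine (e13 n hn hnE.1 k hk1 hk2 m hm x).trans ?_
        nlinarith
      · rw [P_lio]
        refine (e23 n hn hnE.2 k hk1 hk2 m hm x).trans ?_
        nlinarith
      · obtain ⟨x, hx⟩ := Pool.Agent.Run7.h794.MK.Pol_lower (g := Pool.Agent.Run7.h794.MK.lio)
          (fun l : Fin M => n + c + k * (y (i l)).val) m hm (by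
          intro l
          rw [mem_Icc] at hn
          unfold Pool.Agent.Run7.h794.MK.lio
          rw [if_neg (by omega), abs_pow, abs_neg, abs_one, one_pow])
        exact ⟨x, by rw [P_lio]; exact hx⟩

end Pool.Agent.Results.MP_b6b996_nt.RandomSparseSums
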