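import Pool.Agent.Run7.h673.SP.SupP
import Pool.Agent.Run7.h794.MK.AllM
import Pool.Agent.Run7.h794.MK.AllL

/-!
# Sup norms of exponential sums with the Moebius function along random sequences of values of functions of superpolynomial growth

For almost all sequences `k_0, k_1, …, k_(M-1)` of members of a range `(y, x]` of a function `f t = exp (φ (log t))` which grows
faster than all polynomials, for instance `φ y = γ y ^ β` with `1 < β < 3 / 2`, and for all but `N / log ^ A N` of the integers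
`n ≤ N`: for all `m ≤ M`, all `κ ≤ log ^ T N` and ALL real polynomials `P` of degree at most `d` the sum of
`μ(n + c + κ ⌊f (k_l)⌋) e(P(l))` over `l < m` is at most `K √(m log log N)`; the same for the Liouville function, for which the
supremum over the linear `P(l) = l t` is at least `√m`.

From Mathlib: `ContDiffAt ℝ ⊤`: infinitely differentiable at a point; `iteratedDeriv m f`: the derivative of order `m`;
`⌊y⌋₊`: the integer part of `y ≥ 0`; `ArithmeticFunction.moebius`, `ArithmeticFunction.liouville`: the functions of Moebius and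
Liouville.

Method: the exponential sums over the integer parts of `exp (φ (log k))`, `y < k ≤ x`, are small at all frequencies with a
distance of at least `log ^ A / exp (φ (log y))` from the integers (Vinogradov's method of bilinear exponential sums with
the mean value theorem in the form of a starting file; files `Pool.Agent.Run7.h673.SP`), which gives the correlations of `μ`
with arbitrary bounded functions by project MKM of this run (helper794 and others: the Moebius function twisted by additive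
characters in almost all intervals of length `N ^ (1/3) log ^ C N`). The passage to the sup norms (inequality of Hoeffding and a
net of frequencies) is from files of helper794.
-/

set_option autoImplicit false

namespace Pool.Agent.Results.MP_b6b996_nt.SuperpolynomialExponentialSums

open Finset

/-- The conditions on `φ` for the growth of `f t = exp (φ (log t))`: for some `δ > 0`, `K` and `L₀` and all `y > L₀` the
function `φ` is infinitely differentiable at `y`, `φ y > 0`, `(1 + δ) φ y ≤ y φ' y`, `φ y ≤ y ^ (3 / 2 - δ)`, and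
`|φ⁽ᵐ⁾ y| ≤ m! φ y (K / y) ^ m` for all `m ≥ 1`. -/
def Rapid (φ : ℝ → ℝ) : Prop :=
  ∃ δ K L₀ : ℝ, 0 < δ ∧ ∀ y > L₀, ContDiffAt ℝ ((⊤ : ℕ∞) : WithTop ℕ∞) φ y ∧ 0 < φ y ∧
    (1 + δ) * φ y ≤ y * deriv φ y ∧ φ y ≤ y ^ (3 / 2 - δ) ∧
    ∀ m : ℕ, 1 ≤ m → |iteratedDeriv m φ y| ≤ m.factorial * φ y * (K / y) ^ m

/-- `(y, x]` is a range of length at least `x / log ^ a N` in which `f t = exp (φ (log t))` has values between
`N ^ (1/3) log ^ C N` and `N / log ^ C N`: `y < x`, `x ≤ log ^ a N (x - y)`, `N ^ (1/3) log ^ C N ≤ f y` and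
`f x log ^ C N ≤ N`. -/
def Range (φ : ℝ → ℝ) (a C N x y : ℕ) : Prop :=
  y < x ∧ (x : ℝ) ≤ Real.log N ^ a * ((x : ℝ) - y) ∧
    (N : ℝ) ^ (1 / 3 : ℝ) * Real.log N ^ C ≤ Real.exp (φ (Real.log y)) ∧ Real.exp (φ (Real.log x)) * Real.log N ^ C ≤ N

/-- The sum of `F(n + c + κ ⌊exp (φ (log (k l)))⌋) e(P(l))` over `l < m`, where `e(t) = exp (2 π i t)`. -/
noncomputable def S {M : ℕ} (F : ℕ → ℤ) (φ : ℝ → ℝ) (κ c : ℕ) (k : Fin M → ℕ) (n m : ℕ) (P : Polynomial ℝ) : ℂ :=
  ∑ l : Fin M, if (l : ℕ) < m then ((F (n + c + κ * ⌊Real.exp (φ (Real.log (k l)))⌋₊) : ℤ) : ℂ) *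
    Complex.exp (2 * Real.pi * Complex.I * ((P.eval ((l : ℕ) : ℝ) : ℝ) : ℂ)) else 0

lemma S_mob {M : ℕ} (φ : ℝ → ℝ) (κ c : ℕ) (k : Fin M → ℕ) (n m : ℕ) (P : Polynomial ℝ) :
    S (fun n => ArithmeticFunction.moebius n) φ κ c k n m P = ∑ l : Fin M, if (l : ℕ) < m then
      (Pool.Agent.Run7.h794.MK.mob (n + c + κ * Pool.Agent.Run7.h673.SP.val φ (k l)) : ℂ) *
        Pool.Agent.H807R2.Dav.ee (P.eval ((l : ℕ) : ℝ)) else 0 := by
  unfold S Pool.Agent.Run7.h794.MK.mob
  apply sum_congr rfl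
  intro l _
  split_ifs
  · push_cast
    rfl
  · rfl

lemma lio_eq (n : ℕ) : ((ArithmeticFunction.liouville n : ℤ) : ℝ) = Pool.Agent.Run7.h794.MK.lio n := by
  unfold Pool.Agent.Run7.h794.MK.lio
  split_ifs with h
  · rw [h]; simp
  · rw [ArithmeticFunction.liouville_apply h]
    push_cast
    rfl

lemma S_lio {M : ℕ} (φ : ℝ → ℝ) (κ c : ℕ) (k : Fin M → ℕ) (n m : ℕ) (P : Polynomial ℝ) :
    S (fun n => ArithmeticFunction.liouville n) φ κ c k n m P = ∑ l : Fin M, if (l : ℕ) < m then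
      (Pool.Agent.Run7.h794.MK.lio (n + c + κ * Pool.Agent.Run7.h673.SP.val φ (k l)) : ℂ) *
        Pool.Agent.H807R2.Dav.ee (P.eval ((l : ℕ) : ℝ)) else 0 := by
  unfold S
  apply sum_congr rfl
  intro l _
  split_ifs
  · rw [← lio_eq]
    push_cast
    rfl
  · rfl

lemma S_lin {M : ℕ} (φ : ℝ → ℝ) (κ c : ℕ) (k : Fin M → ℕ) (n m : ℕ) (t : ℝ) :
    S (fun n => ArithmeticFunction.liouville n) φ κ c k n m (Polynomial.C t * Polynomial.X) =
      Pool.Agent.Run7.h794.MK.Pol Pool.Agent.Run7.h794.MK.lio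
        (fun l => n + c + κ * Pool.Agent.Run7.h673.SP.val φ (k l)) m t := by
  rw [S_lio]
  unfold Pool.Agent.Run7.h794.MK.Pol
  apply sum_congr rfl
  intro l _
  split_ifs
  · congr 1
    rw [Polynomial.eval_mul, Polynomial.eval_C, Polynomial.eval_X, mul_comm]
    rfl
  · rfl

/-- **(1)** Let `φ` satisfy the conditions `Rapid` and let `d`, `a`, `A`, `T`, `U` be fixed. There are `C` and `K` such that for all
large `N`, all ranges `(y, x]` (`Range`: the values `exp (φ (log k))` are between `N ^ (1/3) log ^ C N` and `N / log ^ C N`, and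
`x - y ≥ x / log ^ a N`), all `c ≤ N` and all `M ≤ log ^ U N` the following holds for all but `(x - y) ^ M / log ^ A N` of the
vectors `k` with `y < k l ≤ x` for all `l < M`: for all `n ≤ N` with at most `N / log ^ A N` exceptions, for ALL
`1 ≤ κ ≤ log ^ T N` and ALL `m ≤ M`: the sum of `μ(n + c + κ ⌊exp (φ (log (k l)))⌋) e(P(l))` over `l < m` is at most
`K √(m log log N)` for ALL real polynomials `P` of degree at most `d`, the same holds for the function of Liouville, and its sum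
is at least `√m` for some linear `P(l) = l t`.

**(2)** Let `φ` satisfy the conditions `Rapid`, `η > 0`, `C`. For all large `N` and all `X` with
`N ^ (1/3 + η) ≤ exp (φ (log X))` and `exp (φ (log X)) log ^ C N ≤ N` the interval `(⌊X / 2⌋, X]` is a range (`a = 1`).

**(3)** The functions `φ y = γ y ^ β` with `γ > 0` and `1 < β < 3 / 2` satisfy the conditions `Rapid`. -/
theorem result :
    (∀ φ : ℝ → ℝ, Rapid φ → ∀ d a A T U : ℕ, ∃ C N₀ : ℕ, ∃ K : ℝ, 0 < K ∧ ∀ N : ℕ, N₀ ≤ N → ∀ x y : ℕ, Range φ a C N x y →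
      ∀ c : ℕ, c ≤ N → ∀ M : ℕ, (M : ℝ) ≤ Real.log N ^ U →
      ∃ Bad : Finset (Fin M → ℕ), (Bad.card : ℝ) ≤ ((x : ℝ) - y) ^ M / Real.log N ^ A ∧
        ∀ k : Fin M → ℕ, (∀ l, y < k l ∧ k l ≤ x) → k ∉ Bad →
        ∃ E : Finset ℕ, (E.card : ℝ) ≤ N / Real.log N ^ A ∧ ∀ n : ℕ, 1 ≤ n → n ≤ N → n ∉ E →
        ∀ κ : ℕ, 1 ≤ κ → (κ : ℝ) ≤ Real.log N ^ T → ∀ m ≤ M,
        (∀ P : Polynomial ℝ, P.natDegree ≤ d →
          ‖S (fun n => ArithmeticFunction.moebius n) φ κ c k n m P‖ ≤ K * √(m * Real.log (Real.log N)) ∧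
          ‖S (fun n => ArithmeticFunction.liouville n) φ κ c k n m P‖ ≤ K * √(m * Real.log (Real.log N))) ∧
        (∃ t : ℝ, √m ≤ ‖S (fun n => ArithmeticFunction.liouville n) φ κ c k n m (Polynomial.C t * Polynomial.X)‖)) ∧
    (∀ φ : ℝ → ℝ, Rapid φ → ∀ η : ℝ, 0 < η → ∀ C : ℕ, ∃ N₀ : ℕ, ∀ N : ℕ, N₀ ≤ N → ∀ X : ℕ,
      (N : ℝ) ^ (1 / 3 + η) ≤ Real.exp (φ (Real.log X)) → Real.exp (φ (Real.log X)) * Real.log N ^ C ≤ N →
      Range φ 1 C N X (X / 2)) ∧
    (∀ γ β : ℝ, 0 < γ → 1 < β → β < 3 / 2 → Rapid (fun y => γ * y ^ β)) := by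
  classical
  refine ⟨fun φ hφ d a A T U => ?_, fun φ hφ η hη C => ?_,
    fun γ β h1 h2 h3 => Pool.Agent.Run7.h673.SP.rapid_pow γ β h1 h2 h3⟩
  · have hφ' : Pool.Agent.Run7.h673.SP.Rapid φ := hφ
    obtain ⟨δ, C', L₀, hf⟩ := hφ'.fast
    obtain ⟨C₁, N₁, K₁, hK₁, h1⟩ := hf.supp Pool.Agent.Run7.h794.MK.mob_abs Pool.Agent.Run7.h794.MK.law_mob d a (A + 1) T U
    obtain ⟨C₂, N₂, K₂, hK₂, h2⟩ := hf.supp Pool.Agent.Run7.h794.MK.lio_abs Pool.Agent.Run7.h794.MK.law_lio d a (A + 1) T U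
    obtain ⟨N₃, h3⟩ := Pool.Agent.Run7.h794.MK.ev_sup
    refine ⟨C₁ + C₂, N₁ + N₂ + N₃, K₁ + K₂, by positivity, fun N hN x y hr c hc M hM => ?_⟩
    obtain ⟨a1, a2⟩ := h3 N (by omega)
    have hL1 : 1 ≤ Real.log (N : ℝ) := by linarith
    have hL0 : 0 < Real.log (N : ℝ) := by linarith
    obtain ⟨r1, r2, r3, r4⟩ := hr
    have hmono : ∀ D, D ≤ C₁ + C₂ → Pool.Agent.Run7.h673.SP.Rgt φ a D N x y := by
      intro D hD
      refine ⟨r1, by rw [Nat.cast_sub r1.le]; exact r2, le_trans ?_ r3, le_trans ?_ r4⟩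
      · apply mul_le_mul_of_nonneg_left _ (by positivity)
        exact pow_le_pow_right₀ hL1 hD
      · apply mul_le_mul_of_nonneg_left _ (Real.exp_pos _).le
        exact pow_le_pow_right₀ hL1 hD
    obtain ⟨B1, b11, b12, b13⟩ := h1 N (by omega) x y (hmono C₁ (by omega)) c hc M hM
    obtain ⟨B2, b21, b22, b23⟩ := h2 N (by omega) x y (hmono C₂ (by omega)) c hc M hM
    rw [Nat.cast_sub r1.le] at b12 b22
    have hxy : (0 : ℝ) ≤ (x : ℝ) - y := by
      have : (y : ℝ) ≤ x := by exact_mod_cast r1.le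
      linarith
    have half : ∀ X : ℝ, 0 ≤ X → X / Real.log N ^ (A + 1) + X / Real.log N ^ (A + 1) ≤ X / Real.log N ^ A := by
      intro X hX
      rw [pow_succ, ← div_div, ← add_div, div_le_iff₀ hL0]
      have : 0 ≤ X / Real.log (N : ℝ) ^ A := by positivity
      nlinarith
    refine ⟨B1 ∪ B2, ?_, fun k hk hbad => ?_⟩
    · have : ((B1 ∪ B2).card : ℝ) ≤ B1.card + B2.card := by exact_mod_cast card_union_le _ _
      exact (this.trans (add_le_add b12 b22)).trans (half _ (by positivity))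
    · rw [mem_union, not_or] at hbad
      have hk' : k ∈ Fintype.piFinset (fun _ : Fin M => Ioc y x) := by
        rw [Fintype.mem_piFinset]
        exact fun l => mem_Ioc.2 (hk l)
      obtain ⟨E1, e11, e12, e13⟩ := b13 k hk' hbad.1
      obtain ⟨E2, e21, e22, e23⟩ := b23 k hk' hbad.2
      refine ⟨E1 ∪ E2, ?_, fun n hn1 hn2 hnE κ hκ1 hκ2 m hm => ?_⟩
      · have : ((E1 ∪ E2).card : ℝ) ≤ E1.card + E2.card := by exact_mod_cast card_union_le _ _
        exact (this.trans (add_le_add e12 e22)).trans (half _ (by positivity))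
      · rw [mem_union, not_or] at hnE
        have hn : n ∈ Icc 1 N := mem_Icc.2 ⟨hn1, hn2⟩
        have hs1 : 0 ≤ √(m * Real.log (Real.log (N : ℝ))) := Real.sqrt_nonneg _
        refine ⟨fun P hP => ⟨?_, ?_⟩, ?_⟩
        · rw [S_mob]
          refine (e13 n hn hnE.1 κ hκ1 hκ2 m hm P hP).trans ?_
          nlinarith
        · rw [S_lio]
          refine (e23 n hn hnE.2 κ hκ1 hκ2 m hm P hP).trans ?_
          nlinarith
        · obtain ⟨t, ht⟩ := Pool.Agent.Run7.h794.MK.Pol_lower (g := Pool.Agent.Run7.h794.MK.lio)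
            (fun l : Fin M => n + c + κ * Pool.Agent.Run7.h673.SP.val φ (k l)) m hm (by
            intro l
            unfold Pool.Agent.Run7.h794.MK.lio
            rw [if_neg (by omega), abs_pow, abs_neg, abs_one, one_pow])
          exact ⟨t, by rw [S_lin]; exact ht⟩
  · have hφ' : Pool.Agent.Run7.h673.SP.Rapid φ := hφ
    obtain ⟨δ, C', L₀, hf⟩ := hφ'.fast
    obtain ⟨N₀, h0⟩ := hf.half η hη C 1
    obtain ⟨N₃, h3⟩ := Filter.eventually_atTop.1 (Pool.Agent.N384.MQ.ev_log_ge 1)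
    refine ⟨N₀ + N₃, fun N hN X h1 h2 => ?_⟩
    have hL := h3 N (by omega)
    obtain ⟨e1, e2, e3, e4⟩ := h0 N (by omega) X h1 (by
      rw [Nat.cast_one, one_mul]
      refine le_trans ?_ h2
      exact le_mul_of_one_le_right (Real.exp_pos _).le (one_le_pow₀ hL))
    refine ⟨e1, ?_, e3, h2⟩
    rw [Nat.cast_sub e1.le] at e2
    exact e2

end Pool.Agent.Results.MP_b6b996_nt.SuperpolynomialExponentialSums
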